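import Pool.Agent.Helper66_D2.Stmts
import Pool.Agent.Helper26_D2.Brq
import Pool.Agent.Helper9_BN.Ch
import Pool.Agent.Helper96_PP.Trn
import Pool.Agent.Helper65_PP.Sup

/-!
# Squad PP, part D2, module CHD: the alternating sum has two terms
-/

open scoped BigOperators

set_option linter.unusedSectionVars false

noncomputable section

namespace Pool.Agent.PP.CD2.H75

open Pool.Agent.Helper51_AWC Pool.Agent.Helper79_WRA Pool.Agent.PP Pool.Agent.PP.BN.H9

section group

variable {G : Type} [Group G] [Finite G]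

/-- uniqueness of the subgroups of a cyclic group -/
theorem mem_of_pow {T E : Subgroup G} (hc : IsCyclic T) (hE : E ≤ T) {z : G} (hz : z ∈ T)
    (hzk : z ^ Nat.card E = 1) : z ∈ E := by
  classical
  have := Fintype.ofFinite T
  have hpos : 0 < Nat.card E := Nat.card_pos
  have h1 := IsCyclic.card_pow_eq_one_le (α := T) hpos
  have h3 : (Set.Finite.toFinset (Set.toFinite (E.subgroupOf T : Set T))) ⊆
      Finset.univ.filter (fun a : T => a ^ Nat.card E = 1) := by
    intro a ha
    rw [Set.Finite.mem_toFinset, SetLike.mem_coe, Subgroup.mem_subgroupOf] at ha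
    rw [Finset.mem_filter]
    refine ⟨Finset.mem_univ _, ?_⟩
    apply Subtype.ext
    rw [Subgroup.coe_pow, Subgroup.coe_one]
    have h4 : (⟨(a : G), ha⟩ : E) ^ Nat.card E = 1 := pow_card_eq_one'
    have h5 := congrArg Subtype.val h4
    rwa [Subgroup.coe_pow, Subgroup.coe_one] at h5
  have h5 : (Set.Finite.toFinset (Set.toFinite (E.subgroupOf T : Set T))) =
      Finset.univ.filter (fun a : T => a ^ Nat.card E = 1) := by
    apply Finset.eq_of_subset_of_card_le h3
    refine h1.trans ?_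
    rw [← Set.ncard_eq_toFinset_card]
    have h6 : (E.subgroupOf T : Set T).ncard = Nat.card E := by
      rw [← Nat.card_coe_set_eq]
      exact Nat.card_congr (Subgroup.subgroupOfEquivOfLe hE).toEquiv
    rw [h6]
  have h7 : (⟨z, hz⟩ : T) ∈ Finset.univ.filter (fun a : T => a ^ Nat.card E = 1) := by
    rw [Finset.mem_filter]
    refine ⟨Finset.mem_univ _, ?_⟩
    apply Subtype.ext
    rw [Subgroup.coe_pow]
    exact hzk
  rw [← h5, Set.Finite.mem_toFinset, SetLike.mem_coe, Subgroup.mem_subgroupOf] at h7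
  exact h7

theorem le_of_card {T D E : Subgroup G} (hc : IsCyclic T) (hD : D ≤ T) (hE : E ≤ T)
    (h : Nat.card D = Nat.card E) : D ≤ E := by
  intro z hz
  apply mem_of_pow hc hE (hD hz)
  rw [← h]
  have h4 : (⟨z, hz⟩ : D) ^ Nat.card D = 1 := pow_card_eq_one'
  have h5 := congrArg Subtype.val h4
  rwa [Subgroup.coe_pow, Subgroup.coe_one] at h5

theorem card_conjS (g : G) (P : Subgroup G) : Nat.card (conjS g P) = Nat.card P :=
  (Nat.card_congr (conjSEquiv g P).toEquiv).symm

/-- the normaliser of a cyclic group normalises its subgroups -/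
theorem norm_le {T D : Subgroup G} (hc : IsCyclic T) (hD : D ≤ T) :
    Subgroup.normalizer (T : Set G) ≤ Subgroup.normalizer (D : Set G) := by
  intro x hx
  rw [mem_normalizer_iff_conjS] at hx ⊢
  have h1 : conjS x D ≤ T := by
    have h2 : conjS x D ≤ conjS x T := Subgroup.map_mono hD
    rwa [hx] at h2
  exact le_antisymm (le_of_card hc h1 hD (card_conjS x D))
    (le_of_card hc hD h1 (card_conjS x D).symm)

theorem isCyclic_of_le {P T : Subgroup G} (hP : IsCyclic P) (h : T ≤ P) : IsCyclic T :=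
  isCyclic_of_injective (Subgroup.inclusion h) (Subgroup.inclusion_injective h)

theorem isCyclic_conjS {P : Subgroup G} (hP : IsCyclic P) (g : G) : IsCyclic (conjS g P) :=
  isCyclic_of_surjective (conjSEquiv g P).toMonoidHom (conjSEquiv g P).surjective

theorem bot_or_eq {ℓ : ℕ} (hℓ : ℓ.Prime) {V : Subgroup G} (hV : Nat.card V = ℓ) {D : Subgroup G}
    (hD : D ≤ V) : D = ⊥ ∨ D = V := by
  have h1 : Nat.card D ∣ ℓ := hV ▸ Subgroup.card_dvd_of_le hD
  rcases (Nat.dvd_prime hℓ).1 h1 with h | h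
  · left
    exact Subgroup.card_eq_one.1 h
  · right
    exact Subgroup.eq_of_le_of_card_ge hD (by rw [hV, h])

theorem isPGroup_of_card {ℓ : ℕ} {V : Subgroup G} (hV : Nat.card V = ℓ) : IsPGroup ℓ V :=
  IsPGroup.of_card (n := 1) (by rw [hV, pow_one])

theorem stab_bot : stab ({⊥} : Finset (Subgroup G)) = ⊤ := by
  rw [eq_top_iff]
  intro x _
  rw [mem_stab]
  intro W hW
  rw [Finset.mem_singleton.1 hW, conjS, Subgroup.map_bot]

/-- the stabiliser of a chain with cyclic top -/
theorem stab_cyc {d : Finset (Subgroup G)} {T : Subgroup G} (hc : IsCyclic T) (hT : T ∈ d)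
    (hle : ∀ D ∈ d, D ≤ T) : stab d = Subgroup.normalizer (T : Set G) := by
  ext x
  rw [mem_stab]
  constructor
  · intro h
    exact mem_normalizer_iff_conjS.2 (h T hT)
  · intro h W hW
    exact mem_normalizer_iff_conjS.1 (norm_le hc (hle W hW) h)

open Classical in
theorem top_eq {d : Finset (Subgroup G)} {T : Subgroup G} (hT : T ∈ d) (hle : ∀ D ∈ d, D ≤ T) :
    top d = T :=
  le_antisymm (sSup_le fun D hD => hle D hD) (le_sSup hT)

open Classical in
theorem stab_pair (V : Subgroup G) : stab ({⊥, V} : Finset (Subgroup G)) =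
    Subgroup.normalizer (V : Set G) := by
  ext x
  rw [mem_stab, mem_normalizer_iff_conjS]
  constructor
  · intro h
    exact h V (Finset.mem_insert_of_mem (Finset.mem_singleton_self _))
  · intro h W hW
    rcases Finset.mem_insert.1 hW with rfl | h'
    · rw [conjS, Subgroup.map_bot]
    · rw [Finset.mem_singleton.1 h']
      exact h

open Classical in
theorem top_pair (V : Subgroup G) : top ({⊥, V} : Finset (Subgroup G)) = V := by
  unfold top
  rw [Finset.coe_insert, Finset.coe_singleton, sSup_insert, sSup_singleton, bot_sup_eq]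

open Classical in
theorem top_single : top ({⊥} : Finset (Subgroup G)) = ⊥ := by
  unfold top
  rw [Finset.coe_singleton, sSup_singleton]

open Classical in
theorem pair_mem {ℓ : ℕ} {N V : Subgroup G} (hV : V ≤ N) (hp : IsPGroup ℓ V) :
    ({⊥, V} : Finset (Subgroup G)) ∈ (chainsOn (psubIn ℓ N) ⊥).filter NormalChain := by
  rw [Finset.mem_filter, mem_chainsOn]
  refine ⟨⟨?_, Finset.mem_insert_self _ _, ?_⟩, ?_⟩
  · intro W hW
    rw [Pool.Agent.PP.H75.mem_psubIn']
    rcases Finset.mem_insert.1 hW with rfl | h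
    · exact ⟨bot_le, IsPGroup.of_bot⟩
    · rw [Finset.mem_singleton.1 h]
      exact ⟨hV, hp⟩
  · intro x hx y hy hxy
    rw [Finset.mem_coe, Finset.mem_insert, Finset.mem_singleton] at hx hy
    rcases hx with rfl | rfl
    · left; exact bot_le
    · rcases hy with rfl | rfl
      · right; exact bot_le
      · exact absurd rfl hxy
  · intro D hD
    rw [top_pair]
    rcases Finset.mem_insert.1 hD with rfl | h
    · intro x _
      rw [mem_normalizer_iff_conjS, conjS, Subgroup.map_bot]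
    · rw [Finset.mem_singleton.1 h]
      exact Subgroup.le_normalizer

open Classical in
theorem single_mem {ℓ : ℕ} {N : Subgroup G} :
    ({⊥} : Finset (Subgroup G)) ∈ (chainsOn (psubIn ℓ N) ⊥).filter NormalChain := by
  rw [Finset.mem_filter, mem_chainsOn]
  refine ⟨⟨?_, Finset.mem_singleton_self _, ?_⟩, ?_⟩
  · intro W hW
    rw [Pool.Agent.PP.H75.mem_psubIn', Finset.mem_singleton.1 hW]
    exact ⟨bot_le, IsPGroup.of_bot⟩
  · intro x hx y hy hxy
    rw [Finset.mem_coe, Finset.mem_singleton] at hx hy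
    exact absurd (hx.trans hy.symm) hxy
  · intro D _
    rw [top_single]
    exact bot_le

open Classical in
/-- a chain with top `V` of prime order -/
theorem eq_pair {ℓ : ℕ} (hℓ : ℓ.Prime) {d : Finset (Subgroup G)} {V : Subgroup G}
    (hV : Nat.card V = ℓ) (hb : ⊥ ∈ d) (ht : V ∈ d) (hle : ∀ D ∈ d, D ≤ V) : d = {⊥, V} := by
  ext W
  rw [Finset.mem_insert, Finset.mem_singleton]
  constructor
  · intro hW
    exact bot_or_eq hℓ hV (hle W hW)
  · rintro (rfl | rfl)
    · exact hb
    · exact ht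

open Classical in
/-- a subgroup of order `ℓ` of `T` -/
def om (ℓ : ℕ) (T : Subgroup G) : Subgroup G :=
  if h : ∃ V ≤ T, Nat.card V = ℓ then h.choose else ⊥

theorem om_spec {ℓ : ℕ} (hℓ : ℓ.Prime) {T : Subgroup G} (hp : IsPGroup ℓ T) (hT : T ≠ ⊥) :
    om ℓ T ≤ T ∧ Nat.card (om ℓ T) = ℓ := by
  have : Fact ℓ.Prime := ⟨hℓ⟩
  have hex : ∃ V ≤ T, Nat.card V = ℓ := by
    have h1 : Nat.card T ≠ 1 := fun h => hT (Subgroup.card_eq_one.1 h)
    obtain ⟨k, hk⟩ := (IsPGroup.iff_card).1 hp
    have h2 : ℓ ∣ Nat.card T := by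
      rw [hk]
      refine dvd_pow_self ℓ ?_
      rintro rfl
      exact h1 (by rw [hk, pow_zero])
    obtain ⟨x, hx⟩ := exists_prime_orderOf_dvd_card' ℓ h2
    refine ⟨Subgroup.zpowers (x : G), ?_, ?_⟩
    · rw [Subgroup.zpowers_le]
      exact x.2
    · rw [Nat.card_zpowers, Subgroup.orderOf_coe, hx]
  unfold om
  rw [dif_pos hex]
  exact hex.choose_spec

/-- the subgroup of order `ℓ` lies in every nontrivial subgroup -/
theorem om_le {ℓ : ℕ} (hℓ : ℓ.Prime) {T D : Subgroup G} (hc : IsCyclic T) (hp : IsPGroup ℓ T)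
    (hT : T ≠ ⊥) (hD : D ≤ T) (hD0 : D ≠ ⊥) : om ℓ T ≤ D := by
  obtain ⟨h1, h2⟩ := om_spec hℓ hp hT
  obtain ⟨h3, h4⟩ := om_spec hℓ (hp.to_le hD) hD0
  exact (le_of_card hc h1 (h3.trans hD) (h2.trans h4.symm)).trans h3

open Classical in
/-- the toggle -/
def tg (ℓ : ℕ) (d : Finset (Subgroup G)) : Finset (Subgroup G) :=
  if om ℓ (top d) ∈ d then d.erase (om ℓ (top d)) else insert (om ℓ (top d)) d

open Classical in
theorem mem_tg {ℓ : ℕ} {d : Finset (Subgroup G)} {W : Subgroup G} (hW : W ≠ om ℓ (top d)) :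
    W ∈ tg ℓ d ↔ W ∈ d := by
  unfold tg
  split_ifs with h
  · rw [Finset.mem_erase]
    exact ⟨fun h => h.2, fun h => ⟨hW, h⟩⟩
  · rw [Finset.mem_insert]
    exact ⟨fun h => h.resolve_left hW, fun h => Or.inr h⟩

open Classical in
theorem om_mem_tg {ℓ : ℕ} {d : Finset (Subgroup G)} :
    om ℓ (top d) ∈ tg ℓ d ↔ om ℓ (top d) ∉ d := by
  unfold tg
  split_ifs with h
  · rw [Finset.mem_erase]
    constructor
    · intro h1
      exact absurd rfl h1.1
    · intro h1
      exact absurd h h1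
  · exact ⟨fun _ => h, fun _ => Finset.mem_insert_self _ _⟩

open Classical in
theorem tg_tg {ℓ : ℕ} {d : Finset (Subgroup G)} (h : top (tg ℓ d) = top d) :
    tg ℓ (tg ℓ d) = d := by
  ext W
  by_cases hW : W = om ℓ (top d)
  · rw [hW]
    have h1 : om ℓ (top d) = om ℓ (top (tg ℓ d)) := by rw [h]
    have h2 : om ℓ (top (tg ℓ d)) ∈ tg ℓ (tg ℓ d) ↔ om ℓ (top (tg ℓ d)) ∉ tg ℓ d := om_mem_tg
    rw [← h1, om_mem_tg, not_not] at h2
    exact h2
  · have h1 : W ≠ om ℓ (top (tg ℓ d)) := by rw [h]; exact hW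
    rw [mem_tg h1, mem_tg hW]

open Classical in
theorem card_tg {ℓ : ℕ} (d : Finset (Subgroup G)) :
    (-1 : ℤ) ^ ((tg ℓ d).card + 1) = -(-1 : ℤ) ^ (d.card + 1) := by
  unfold tg
  split_ifs with h
  · have h1 := Finset.card_erase_add_one h
    rw [← h1, pow_succ (-1 : ℤ) (_ + 1)]
    ring
  · rw [Finset.card_insert_of_notMem h, pow_succ (-1 : ℤ) (_ + 1)]
    ring

end group

open Classical in
/-- CHD -/
theorem chd (hNch : NchStmt) (hNls : NlsStmt) (hBrm : BrmStmt) : ChdStmt := by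
  intro ℓ hfact F _ hF G _ _ n N P y₁ b w hD hU e he heb
  have := Fintype.ofFinite G
  have hℓ : ℓ.Prime := hF.prime
  obtain ⟨P₁, hP₁⟩ : ∃ P₁ : Subgroup G, P₁ = Subgroup.zpowers y₁ := ⟨_, rfl⟩
  have hNY : NY y₁ = Subgroup.normalizer (P₁ : Set G) := by rw [hP₁]; rfl
  have hbYe : bY y₁ e = br P₁ e := by rw [hP₁]; rfl
  have hcard1 : Nat.card P₁ = ℓ := by rw [hP₁, Nat.card_zpowers, hD.ord]
  have hP₁P : P₁ ≤ P := by
    rw [hP₁, Subgroup.zpowers_le]
    exact hD.mem
  have hcyc : IsCyclic P := hD.cyc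
  have hPp : IsPGroup ℓ P := IsPGroup.of_card hD.card
  have hP1p : IsPGroup ℓ P₁ := isPGroup_of_card hcard1
  have hP0 : P₁ ≠ ⊥ := by
    intro h
    rw [h, Subgroup.card_bot] at hcard1
    exact hℓ.one_lt.ne hcard1
  have hcN : ∀ g : G, conjS g P ≤ N := by
    intro g x hx
    rw [mem_conjS] at hx
    have h1 := hD.normal.conj_mem _ (hD.le hx) g
    have h2 : g * (g⁻¹ * x * g) * g⁻¹ = x := by group
    rwa [h2] at h1
  have hcP : ∀ g : G, conjS g P₁ ≤ conjS g P := fun g => Subgroup.map_mono hP₁P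
  have hcc : ∀ g : G, Nat.card (conjS g P₁) = ℓ := fun g => by rw [card_conjS, hcard1]
  -- normal chains
  have hYY : YY ℓ N e = ∑ d ∈ (chainsOn (psubIn ℓ N) ⊥).filter NormalChain,
      (-1) ^ (d.card + 1) * ((Nat.card (stab d) : ℤ) * (lnum (stab d) e : ℤ)) :=
    hNch ℓ G N (fun S _ => (Nat.card S : ℤ) * (lnum S e : ℤ))
  -- the conjugates of `P₁`
  obtain ⟨C, hC⟩ : ∃ C : Finset (Subgroup G), C = Finset.univ.image fun g : G => conjS g P₁ :=
    ⟨_, rfl⟩
  obtain ⟨A, hA⟩ : ∃ A : Finset (Finset (Subgroup G)),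
      A = insert ({⊥} : Finset (Subgroup G)) (C.image fun V => {⊥, V}) := ⟨_, rfl⟩
  obtain ⟨S, hS⟩ : ∃ S : Finset (Finset (Subgroup G)),
      S = (chainsOn (psubIn ℓ N) ⊥).filter NormalChain := ⟨_, rfl⟩
  obtain ⟨f, hf⟩ : ∃ f : Finset (Subgroup G) → ℤ, ∀ d, f d =
      (-1 : ℤ) ^ (d.card + 1) * ((Nat.card (stab d) : ℤ) * (lnum (stab d) e : ℤ)) :=
    ⟨_, fun _ => rfl⟩
  -- structure of the other chains
  have hstr : ∀ d ∈ S, d ∉ A → (∃ g : G, top d ≤ conjS g P) →
      IsCyclic (top d) ∧ IsPGroup ℓ (top d) ∧ top d ≤ N ∧ top d ≠ ⊥ ∧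
        Nat.card (top d) ≠ ℓ ∧ ⊥ ∈ d ∧ top d ∈ d ∧ (∀ D ∈ d, D ≤ top d) := by
    intro d hd hdA hg
    rw [hS, Finset.mem_filter, mem_chainsOn] at hd
    obtain ⟨⟨h1, h2, h3⟩, h4⟩ := hd
    obtain ⟨t1, t2⟩ := H94.top_mem h3 ⟨_, h2⟩
    obtain ⟨tN, tp⟩ := Pool.Agent.PP.H75.mem_psubIn'.1 (h1 t1)
    obtain ⟨g, hg⟩ := hg
    have hcycT : IsCyclic (top d) := isCyclic_of_le (isCyclic_conjS hcyc g) hg
    refine ⟨hcycT, tp, tN, ?_, ?_, h2, t1, t2⟩
    · intro h
      apply hdA
      rw [hA, Finset.mem_insert]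
      left
      ext W
      rw [Finset.mem_singleton]
      constructor
      · intro hW
        have := t2 W hW
        rw [h, le_bot_iff] at this
        exact this
      · rintro rfl
        exact h2
    · intro h
      apply hdA
      rw [hA, Finset.mem_insert, Finset.mem_image]
      right
      refine ⟨top d, ?_, (eq_pair hℓ h h2 t1 t2).symm⟩
      rw [hC, Finset.mem_image]
      refine ⟨g, Finset.mem_univ _, ?_⟩
      exact le_antisymm
        (le_of_card (isCyclic_conjS hcyc g) (hcP g) hg ((hcc g).trans h.symm))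
        (le_of_card (isCyclic_conjS hcyc g) hg (hcP g) (h.trans (hcc g).symm))
  -- the chains whose top is not conjugate to a subgroup of `P`
  have hkill : ∀ d ∈ S, ¬ (∃ g : G, top d ≤ conjS g P) → f d = 0 := by
    intro d hd hng
    rw [hS, Finset.mem_filter, mem_chainsOn] at hd
    obtain ⟨⟨h1, h2, h3⟩, h4⟩ := hd
    obtain ⟨t1, t2⟩ := H94.top_mem h3 ⟨_, h2⟩
    obtain ⟨tN, tp⟩ := Pool.Agent.PP.H75.mem_psubIn'.1 (h1 t1)
    have hbr : br (top d) b = 0 := by
      by_contra hne
      exact hng (hU (top d) tN tp hne)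
    have hbe : br (top d) e = 0 := by
      have h5 := (hBrm ℓ F hF G (top d) (Subgroup.centralizer ((top d : Subgroup G) : Set G)) tp
        le_rfl (Subgroup.centralizer_le_normalizer _)).1 e b he.1 hD.idem.1
      rw [heb, hbr] at h5
      rw [h5]
      funext x
      unfold mulF
      simp
    have hX1 : top d ≤ stab d := by
      intro x hx
      rw [mem_stab]
      intro D hDd
      exact mem_normalizer_iff_conjS.1 (h4 D hDd hx)
    have hX2 : stab d ≤ Subgroup.normalizer ((top d : Subgroup G) : Set G) := by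
      intro x hx
      rw [mem_normalizer_iff_conjS]
      exact mem_stab.1 hx _ t1
    rw [hf, H65.kill hNls hF he.1 hX1 hX2 tp]
    · simp
    · intro g _ hg
      have h6 := congrFun hbe g
      unfold br at h6
      rw [if_pos hg] at h6
      exact h6
  have hsub : A ⊆ S := by
    intro d hd
    rw [hA, Finset.mem_insert, Finset.mem_image] at hd
    rw [hS]
    rcases hd with rfl | ⟨V, hV, rfl⟩
    · exact single_mem
    · rw [hC] at hV
      obtain ⟨g, -, rfl⟩ := Finset.mem_image.1 hV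
      exact pair_mem ((hcP g).trans (hcN g)) (isPGroup_of_card (hcc g))
  -- the toggle
  obtain ⟨R, hR⟩ : ∃ R : Finset (Finset (Subgroup G)),
      R = (S \ A).filter fun d => ∃ g : G, top d ≤ conjS g P := ⟨_, rfl⟩
  have hmemR : ∀ d, d ∈ R ↔ (d ∈ S ∧ d ∉ A) ∧ ∃ g : G, top d ≤ conjS g P := by
    intro d
    rw [hR, Finset.mem_filter, Finset.mem_sdiff]
  have htop : ∀ d ∈ R, top (tg ℓ d) = top d ∧ ⊥ ∈ tg ℓ d ∧ top d ∈ tg ℓ d ∧
      ∀ D ∈ tg ℓ d, D ≤ top d := by
    intro d hd
    rw [hmemR] at hd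
    obtain ⟨hcT, hpT, hTN, hT0, hTℓ, hb, hTd, hle⟩ := hstr d hd.1.1 hd.1.2 hd.2
    obtain ⟨ho1, ho2⟩ := om_spec hℓ hpT hT0
    have hob : (⊥ : Subgroup G) ≠ om ℓ (top d) := by
      intro h
      rw [← h, Subgroup.card_bot] at ho2
      exact hℓ.one_lt.ne ho2
    have hoT : top d ≠ om ℓ (top d) := by
      intro h
      rw [← h] at ho2
      exact hTℓ ho2
    have h1 : ⊥ ∈ tg ℓ d := (mem_tg hob).2 hb
    have h2 : top d ∈ tg ℓ d := (mem_tg hoT).2 hTd
    have h3 : ∀ D ∈ tg ℓ d, D ≤ top d := by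
      intro D hDd
      by_cases h : D = om ℓ (top d)
      · rw [h]
        exact ho1
      · exact hle D ((mem_tg h).1 hDd)
    exact ⟨top_eq h2 h3, h1, h2, h3⟩
  have hRsum : ∑ d ∈ R, f d = 0 := by
    refine Finset.sum_involution (fun d _ => tg ℓ d) ?_ ?_ ?_ ?_
    · intro d hd
      obtain ⟨h1, h2, h3, h4⟩ := htop d hd
      have hd' := (hmemR d).1 hd
      obtain ⟨hcT, hpT, hTN, hT0, hTℓ, hb, hTd, hle⟩ := hstr d hd'.1.1 hd'.1.2 hd'.2
      rw [hf, hf, card_tg, stab_cyc hcT hTd hle, stab_cyc hcT h3 h4]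
      ring
    · intro d hd _ h
      have h1 : om ℓ (top d) ∈ tg ℓ d ↔ om ℓ (top d) ∉ d := om_mem_tg
      rw [h] at h1
      exact (iff_not_self h1).elim
    · intro d hd
      obtain ⟨h1, h2, h3, h4⟩ := htop d hd
      have hd' := (hmemR d).1 hd
      obtain ⟨hcT, hpT, hTN, hT0, hTℓ, hb, hTd, hle⟩ := hstr d hd'.1.1 hd'.1.2 hd'.2
      obtain ⟨ho1, ho2⟩ := om_spec hℓ hpT hT0
      rw [hmemR]
      refine ⟨⟨?_, ?_⟩, ?_⟩
      · have hdS := hd'.1.1
        rw [hS, Finset.mem_filter, mem_chainsOn] at hdS ⊢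
        obtain ⟨⟨k1, k2, k3⟩, k4⟩ := hdS
        refine ⟨⟨?_, h2, ?_⟩, ?_⟩
        · intro W hW
          rw [Pool.Agent.PP.H75.mem_psubIn']
          exact ⟨(h4 W hW).trans hTN, hpT.to_le (h4 W hW)⟩
        · intro x hx y hy hxy
          rw [Finset.mem_coe] at hx hy
          by_cases hxo : x = om ℓ (top d)
          · by_cases hy0 : y = ⊥
            · right
              rw [hy0]
              exact bot_le
            · left
              rw [hxo]
              exact om_le hℓ hcT hpT hT0 (h4 y hy) hy0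
          · by_cases hyo : y = om ℓ (top d)
            · by_cases hx0 : x = ⊥
              · left
                rw [hx0]
                exact bot_le
              · right
                rw [hyo]
                exact om_le hℓ hcT hpT hT0 (h4 x hx) hx0
            · exact k3 ((mem_tg hxo).1 hx) ((mem_tg hyo).1 hy) hxy
        · intro D hDd
          rw [h1]
          exact Subgroup.le_normalizer.trans (norm_le hcT (h4 D hDd))
      · intro hA'
        rw [hA, Finset.mem_insert, Finset.mem_image] at hA'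
        rcases hA' with h | ⟨V, hV, h⟩
        · rw [h, Finset.mem_singleton] at h3
          exact hT0 h3
        · rw [hC] at hV
          obtain ⟨g, -, rfl⟩ := Finset.mem_image.1 hV
          rw [← h, Finset.mem_insert, Finset.mem_singleton] at h3
          rcases h3 with h3 | h3
          · exact hT0 h3
          · exact hTℓ (by rw [h3, hcc])
      · rw [h1]
        exact hd'.2
    · intro d hd
      exact tg_tg (htop d hd).1
  have hSA : ∑ d ∈ S, f d = ∑ d ∈ A, f d := by
    rw [← Finset.sum_sdiff hsub]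
    have h1 : ∑ d ∈ S \ A, f d = ∑ d ∈ R, f d := by
      rw [hR]
      refine (Finset.sum_filter_of_ne ?_).symm
      intro d hd hne
      by_contra hng
      exact hne (hkill d (Finset.mem_sdiff.1 hd).1 hng)
    rw [h1, hRsum, zero_add]
  have hYY' : YY ℓ N e = ∑ d ∈ A, f d := by
    rw [hYY, ← hSA, hS]
    exact Finset.sum_congr rfl fun d _ => (hf d).symm
  rw [hYY', hA]
  -- values
  have hf0 : f ({⊥} : Finset (Subgroup G)) = (Nat.card G : ℤ) *
      ({φ : G → F | φ ∈ IBr F G ∧ actF e φ = φ}.ncard : ℤ) := by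
    have h1 : lnum (⊤ : Subgroup G) e = {φ : G → F | φ ∈ IBr F G ∧ actF e φ = φ}.ncard := by
      rw [Pool.Agent.PP.H75.lnum_eq]
      exact Pool.Agent.PP.H75.cnt_equiv Subgroup.topEquiv e
    rw [hf, stab_bot, Finset.card_singleton, h1, Subgroup.card_top]
    ring
  have hbr1 : lnum (Subgroup.normalizer (P₁ : Set G)) e =
      lnum (Subgroup.normalizer (P₁ : Set G)) (br P₁ e) :=
    H96.lnum_br hF hNls hP1p Subgroup.le_normalizer le_rfl he.1
  have hf1 : ∀ V ∈ C, f ({⊥, V} : Finset (Subgroup G)) =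
      -((Nat.card (Subgroup.normalizer (P₁ : Set G)) : ℤ) *
        (lnum (Subgroup.normalizer (P₁ : Set G)) (br P₁ e) : ℤ)) := by
    intro V hV
    rw [hC] at hV
    obtain ⟨g, -, rfl⟩ := Finset.mem_image.1 hV
    have h1 : ({⊥, conjS g P₁} : Finset (Subgroup G)).card = 2 :=
      Finset.card_pair (conjS_ne_bot hP0 g).symm
    have h3 : lnum (conjS g (Subgroup.normalizer (P₁ : Set G))) e =
        lnum (Subgroup.normalizer (P₁ : Set G)) e := by
      rw [conjS, Pool.Agent.PP.H75.lnum_map _ (MulAut.conj g).injective]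
      have h4 : (fun x => e ((MulAut.conj g).toMonoidHom x)) = e := by
        funext x
        exact he.1 x g
      rw [h4]
    rw [hf, h1, stab_pair, norm_conjS, card_conjS, h3, hbr1]
    ring
  have hcard : (C.card : ℤ) * (Nat.card (Subgroup.normalizer (P₁ : Set G)) : ℤ) =
      (Nat.card G : ℤ) := by
    have h1 : Fintype.card G = ∑ V ∈ C, (Finset.univ.filter fun g : G => conjS g P₁ = V).card := by
      rw [← Finset.card_univ]
      exact Finset.card_eq_sum_card_fiberwise
        (fun g _ => by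
          rw [hC]
          exact Finset.mem_coe.2 (Finset.mem_image_of_mem _ (Finset.mem_univ g)))
    have h2 : ∀ V ∈ C, (Finset.univ.filter fun g : G => conjS g P₁ = V).card =
        Nat.card (Subgroup.normalizer (P₁ : Set G)) := by
      intro V hV
      rw [hC] at hV
      obtain ⟨k, -, rfl⟩ := Finset.mem_image.1 hV
      rw [← card_fib P₁ k, Nat.card_eq_fintype_card, Fintype.card_subtype]
    rw [Finset.sum_congr rfl h2, Finset.sum_const, smul_eq_mul] at h1
    rw [Nat.card_eq_fintype_card (α := G), h1]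
    push_cast
    ring
  rw [Finset.sum_insert, hf0, Finset.sum_image, Finset.sum_congr rfl hf1,
    Finset.sum_const, nsmul_eq_mul]
  · have h5 : ({θ : NY y₁ → F | θ ∈ IBr F (NY y₁) ∧
          actF (fun t : NY y₁ => bY y₁ e t) θ = θ}.ncard : ℤ) =
        (lnum (Subgroup.normalizer (P₁ : Set G)) (br P₁ e) : ℤ) := by
      rw [hP₁]
      rfl
    rw [h5]
    linear_combination (-(lnum (Subgroup.normalizer (P₁ : Set G)) (br P₁ e) : ℤ)) * hcard
  · intro V hV W hW h
    have hV' : V ∈ C := hV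
    rw [hC] at hV'
    obtain ⟨g, -, hg⟩ := Finset.mem_image.1 hV'
    have h1 : V ∈ ({⊥, W} : Finset (Subgroup G)) := by
      have h2 : V ∈ ({⊥, V} : Finset (Subgroup G)) :=
        Finset.mem_insert_of_mem (Finset.mem_singleton_self _)
      have h3 : ({⊥, V} : Finset (Subgroup G)) = {⊥, W} := h
      rwa [h3] at h2
    rcases Finset.mem_insert.1 h1 with h2 | h2
    · exact absurd (hg.trans h2) (conjS_ne_bot hP0 g)
    · exact Finset.mem_singleton.1 h2
  · intro h
    obtain ⟨V, hV, h1⟩ := Finset.mem_image.1 h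
    rw [hC] at hV
    obtain ⟨g, -, hg⟩ := Finset.mem_image.1 hV
    have h2 : V ∈ ({⊥} : Finset (Subgroup G)) := by
      rw [← h1]
      exact Finset.mem_insert_of_mem (Finset.mem_singleton_self _)
    exact absurd (hg.trans (Finset.mem_singleton.1 h2)) (conjS_ne_bot hP0 g)

end Pool.Agent.PP.CD2.H75
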