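import Pool.Agent.Helper75_D2.StbA

/-!
# Squad PP, part D2, module STB
-/

open scoped BigOperators

set_option linter.unusedSectionVars false

noncomputable section

namespace Pool.Agent.PP.CD2.H75

open Pool.Agent.PP Pool.Agent.Helper51_AWC Pool.Agent.Helper79_WRA Pool.Agent.PP.H20
  Pool.Agent.PP.CD2.H66 Pool.Agent.PP.CD2.H26

/-- the normaliser of `⟨y⟩` modulo the centraliser -/
theorem norm_pow {G : Type} [Group G] {ℓ n : ℕ} (hℓ : ℓ.Prime) {y : G}
    (ho : orderOf y = ℓ ^ (n + 1)) (hc : y ^ (ℓ ^ n) ∈ Subgroup.center G) {x : G}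
    (hx : x ∈ NY y) : x ^ (ℓ ^ n) ∈ CY y := by
  obtain ⟨r, hr⟩ := Subgroup.mem_zpowers_iff.1
    ((Subgroup.mem_normalizer_iff.1 hx y).1 (Subgroup.mem_zpowers y))
  have h1 : ∀ j : ℕ, x ^ j * y * (x ^ j)⁻¹ = y ^ (r ^ j) := by
    intro j
    induction j with
    | zero => simp
    | succ j ih =>
      have e : x ^ (j + 1) * y * (x ^ (j + 1))⁻¹ = x * (x ^ j * y * (x ^ j)⁻¹) * x⁻¹ := by
        rw [pow_succ']
        group
      rw [e, ih, ← conj_zpow, ← hr, ← zpow_mul, pow_succ']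
  have h2 : x * y ^ (ℓ ^ n) * x⁻¹ = y ^ (ℓ ^ n) := by
    rw [Subgroup.mem_center_iff.1 hc x, mul_inv_cancel_right]
  have h3 : x * y ^ (ℓ ^ n) * x⁻¹ = y ^ (r * ((ℓ ^ n : ℕ) : ℤ)) := by
    rw [← conj_pow, ← hr, ← zpow_natCast, ← zpow_mul]
  have h4 : y ^ ((r - 1) * ((ℓ ^ n : ℕ) : ℤ)) = 1 := by
    rw [sub_mul, one_mul, zpow_sub, ← h3, h2, zpow_natCast, mul_inv_cancel]
  have h5 : ((ℓ : ℕ) : ℤ) ∣ r - 1 := by
    have h6 := orderOf_dvd_iff_zpow_eq_one.2 h4
    rw [ho, pow_succ'] at h6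
    push_cast at h6
    exact (mul_dvd_mul_iff_right (pow_ne_zero n (by exact_mod_cast hℓ.ne_zero))).1 h6
  have h6 := dvd_sub_pow_of_dvd_sub h5 n
  have h7 : y ^ (r ^ (ℓ ^ n)) = y := by
    have h8 : y ^ (r ^ (ℓ ^ n) - 1) = 1 := by
      apply orderOf_dvd_iff_zpow_eq_one.1
      rw [ho]
      push_cast
      rw [one_pow] at h6
      exact h6
    rw [zpow_sub, zpow_one] at h8
    exact mul_inv_eq_one.1 h8
  have h8 := h1 (ℓ ^ n)
  rw [h7, mul_inv_eq_iff_eq_mul] at h8
  have h9 : Commute y (x ^ (ℓ ^ n)) := h8.symm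
  refine Subgroup.mem_centralizer_iff.2 fun z hz => ?_
  obtain ⟨j, rfl⟩ := Subgroup.mem_zpowers_iff.1 hz
  exact (h9.zpow_left j).eq

/-- a power which is an `ℓ`-element -/
theorem exists_elt {G : Type} [Group G] [Finite G] {ℓ n : ℕ} (hℓ : ℓ.Prime) {D : Subgroup G}
    {x : G} (hx : x ∉ D) (hxn : x ^ (ℓ ^ n) ∈ D) :
    ∃ s k : ℕ, x ^ s ∉ D ∧ orderOf (x ^ s) = ℓ ^ k := by
  obtain ⟨k, s, hs, ho⟩ := Nat.exists_eq_pow_mul_and_not_dvd (orderOf_pos x).ne' ℓ hℓ.ne_one
  have hs0 : s ≠ 0 := by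
    rintro rfl
    exact hs (dvd_zero _)
  refine ⟨s, k, fun h => hx ?_, ?_⟩
  · have hco : Nat.Coprime s (ℓ ^ n) :=
      (Nat.Coprime.pow_left n ((Nat.Prime.coprime_iff_not_dvd hℓ).2 hs)).symm
    have h1 := Nat.gcd_eq_gcd_ab s (ℓ ^ n)
    rw [hco] at h1
    have h2 : x = (x ^ s) ^ (Nat.gcdA s (ℓ ^ n)) * (x ^ (ℓ ^ n)) ^ (Nat.gcdB s (ℓ ^ n)) := by
      rw [← zpow_natCast, ← zpow_natCast, ← zpow_mul, ← zpow_mul, ← zpow_add, ← h1, Nat.cast_one,
        zpow_one]
    rw [h2]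
    exact D.mul_mem (D.zpow_mem h _) (D.zpow_mem hxn _)
  · rw [orderOf_pow_of_dvd hs0 (by rw [ho]; exact Dvd.intro_left _ rfl), ho,
      Nat.mul_div_cancel _ (Nat.pos_of_ne_zero hs0)]

section sh

variable {F : Type} [Field F] {G : Type} [Group G] [Finite G]

/-- the shift -/
def sh (t : G) (f : G → F) : G → F := fun g => f (t⁻¹ * g)

theorem toMA_sh (t : G) (f : G → F) : toMA (sh t f) = MonoidAlgebra.single t (1 : F) * toMA f := by
  rw [single_mul_toMA]
  rfl

theorem sh_mulF (t : G) (f g : G → F) : mulF (sh t f) g = sh t (mulF f g) := by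
  apply toMA_injective
  rw [toMA_mulF, toMA_sh, toMA_sh, toMA_mulF, mul_assoc]

theorem mulF_sh {C : Subgroup G} {t : G} {f : G → F} (hf : CmF C f) (ht : t ∈ C) (g : G → F) :
    mulF f (sh t g) = sh t (mulF f g) := by
  apply toMA_injective
  rw [toMA_mulF, toMA_sh, toMA_sh, toMA_mulF, ← mul_assoc, ← mul_assoc, cmF_iff.1 hf t ht]

theorem sh_sp {C : Subgroup G} {t : G} {f : G → F} (hf : SpF C f) (ht : t ∈ C) :
    SpF C (sh t f) := by
  intro x hx
  apply hf
  intro h
  apply hx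
  have h1 := C.mul_mem ht h
  rwa [mul_inv_cancel_left] at h1

theorem sh_cm {C : Subgroup G} {t : G} {f : G → F} (hf : CmF C f) (ht : ∀ c ∈ C, c * t = t * c) :
    CmF C (sh t f) := by
  rw [cmF_iff] at hf ⊢
  intro c hc
  rw [toMA_sh, ← mul_assoc, MonoidAlgebra.single_mul_single, ht c hc, mul_assoc,
    ← hf c hc, ← mul_assoc, MonoidAlgebra.single_mul_single]

theorem bY_sh {y t : G} (ht : t ∈ CY y) (f : G → F) : bY y (sh t f) = sh t (bY y f) := by
  funext g
  by_cases hg : g ∈ CY y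
  · rw [bY_pos _ hg]
    exact (bY_pos f ((CY y).mul_mem ((CY y).inv_mem ht) hg)).symm
  · rw [bY_neg _ hg]
    refine (bY_neg f fun h => hg ?_).symm
    have h1 := (CY y).mul_mem ht h
    rwa [mul_inv_cancel_left] at h1

theorem bY_of_sp {y : G} {f : G → F} (hf : SpF (CY y) f) : bY y f = f := by
  funext g
  by_cases hg : g ∈ CY y
  · exact bY_pos _ hg
  · rw [bY_neg _ hg, hf g hg]

end sh

/-- STB -/
theorem stb (orb : OrbStmt) (nls : NlsStmt) (brp : BrpStmt) (bld : BldStmt) (inv : InvStmt) :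
    StbStmt := by
  classical
  intro ℓ hℓ F _ hF G _ _ n P y e hS
  obtain ⟨hgen, hord, hcen, hblk, hprj, hbrn⟩ := hS
  subst hgen
  have hfG := Fintype.ofFinite G
  have hcl := hF.closed
  have hchar := hF.char
  have he : IsIdem e := hblk.1
  -- the subgroups
  have hPp : IsPGroup ℓ (Subgroup.zpowers y) := by
    apply IsPGroup.of_card (n := n + 1)
    rw [Nat.card_zpowers, hord]
  have hPD : Subgroup.zpowers y ≤ CY y := by
    rw [Subgroup.zpowers_le]
    refine Subgroup.mem_centralizer_iff.2 fun z hz => ?_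
    obtain ⟨j, rfl⟩ := Subgroup.mem_zpowers_iff.1 hz
    exact ((Commute.refl y).zpow_left j).eq
  have hDM : CY y ≤ NY y := CY_le_NY y
  have hPM : Subgroup.zpowers y ≤ NY y := hPD.trans hDM
  have hkD : ∀ k ∈ NY y, ∀ x, k⁻¹ * x * k ∈ CY y ↔ x ∈ CY y := fun k hk x => conj_cent hk
  have hkP : ∀ k ∈ NY y, conjS k (Subgroup.zpowers y) = Subgroup.zpowers y := by
    intro k hk
    ext x
    rw [mem_conjS]
    have h1 := Subgroup.mem_normalizer_iff.1 (inv_mem hk) x
    rw [inv_inv] at h1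
    exact h1.symm
  have hPcomm : ∀ c ∈ CY y, ∀ p ∈ Subgroup.zpowers y, c * p = p * c := fun c hc p hp =>
    (Subgroup.mem_centralizer_iff.1 hc p hp).symm
  -- the idempotent `b₁`
  have hb₁s : SpF (CY y) (bY y e) := (bY_sp (N := ⊤) fun x hx => absurd (Subgroup.mem_top x) hx).mono
    inf_le_right
  have hb₁M : CmF (NY y) (bY y e) := (bY_cm (cmF_of_cl he.1 ⊤)).mono (le_inf le_top le_rfl)
  have hb₁D : CmF (CY y) (bY y e) := hb₁M.mono hDM
  have hb₁b : mulF (bY y e) (bY y e) = bY y e := by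
    rw [← bY_mulF hF hPp (cmF_of_cl he.1 _) (cmF_of_cl he.1 _), he.2]
  obtain ⟨m, ε, he1, -, he3⟩ := bld ℓ F hF G (CY y) (bY y e) hb₁s hb₁D hb₁b
  have hm : 0 < m := by
    rcases Nat.eq_zero_or_pos m with h | h
    · subst h
      exact absurd (he3.symm.trans (by simp)) hbrn
    · exact h
  have hb := he1 ⟨0, hm⟩
  set b : G → F := ε ⟨0, hm⟩ with hbdef
  have hbD : CmF (CY y) b := H31.blc_cm hb
  have hbb : mulF b b = b := H31.blc_ff hb
  have hbb₁ : mulF b (bY y e) = b := by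
    rw [cm_comm hbD hb₁s, hb.le]
  obtain ⟨r, ρ, hρ, hρb⟩ := H20.blk_rep hF hb.blk.1 hb.blk.2.1
  have hr : NeZero r := ⟨hρ.1.ne'⟩
  -- weights
  obtain ⟨c, z, hc, hz, hzP, hez⟩ := hprj
  obtain ⟨c₁, hc₁⟩ := D1H51.exists_w F hPM
  obtain ⟨d, hd⟩ := D1H51.exists_w F hDM
  obtain ⟨w, hw⟩ := D1H51.exists_w F hPD
  have hbrT : ∀ a : G → F, CmF (Subgroup.zpowers y) a → bY y (TrF c a) = TrF c₁ (bY y a) := by
    intro a ha
    refine (brp ℓ F hF G ⊤ (Subgroup.zpowers y) (Subgroup.zpowers y) hPp le_top le_top c a hc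
      ha).2 rfl c₁ ?_
    rw [top_inf_eq]
    exact hc₁
  have heT : e = TrF c z := funext hez
  have hz₁s : SpF (CY y) (bY y z) := (bY_sp (N := ⊤) hz).mono inf_le_right
  have hz₁P : CmF (Subgroup.zpowers y) (bY y z) :=
    (bY_cm (y := y) (H := Subgroup.zpowers y) hzP).mono (le_inf le_rfl hPM)
  set z₁ : G → F := bY y z with hz₁
  set a : G → F := TrF w z₁ with ha
  have has : SpF (CY y) a := TrF_sp hw hz₁s
  have haD : CmF (CY y) a := TrF_cm hPD hw hz₁P
  have hb₁a : bY y e = TrF d a := by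
    conv_lhs => rw [heT]
    rw [hbrT z hzP, TrF_trans hPD hDM hc₁ hd hw hz₁P]
  -- the representation
  have hρb₁ : ev ρ (fun x : CY y => bY y e x) = 1 := by
    have h3 : mulF (fun x : CY y => bY y e x) (fun x : CY y => b x) = fun x : CY y => b x := by
      rw [← H46.restr_ext0 (mulF (fun x : CY y => bY y e x) (fun x : CY y => b x)), H46.ext0_mul,
        H46.ext0_restr hb₁s, H46.ext0_restr hb.supp, hb.le]
    have h4 := congrArg (ev ρ) h3
    rw [H20.ev_mulF, hρb, mul_one] at h4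
    exact h4
  have hcga : ∀ k ∈ NY y, CmF (CY y) (cg k a) := by
    intro k hk
    refine cm_of_cg fun δ hδ => ?_
    have h1 : k⁻¹ * δ * k ∈ CY y := (hkD k hk δ).2 hδ
    have h2 : δ * k = k * (k⁻¹ * δ * k) := by group
    rw [← cg_mul, h2, cg_mul, cg_of_cm haD h1]
  have hsum : ev ρ (fun x : CY y => bY y e x) =
      ∑ k : G, d k • ev ρ (fun x : CY y => cg k a x) := by
    rw [← D1H51.ev_lin]
    congr 1
    funext x
    rw [hb₁a, TrF_eq, Finset.sum_apply, Finset.sum_apply]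
    rfl
  have hscal : ∀ k ∈ NY y, ∃ s : F, ev ρ (fun x : CY y => cg k a x) = Matrix.scalar (Fin r) s := by
    intro k hk
    obtain ⟨s, hs, -⟩ := H20.eig F (CY y) r ρ hρ (fun x : CY y => cg k a x)
      (fun x t => hcga k hk t t.2 x)
    exact ⟨s, hs⟩
  have hb₁k : ∀ k ∈ NY y, (fun g => bY y e (k⁻¹ * g * k)) = bY y e := fun k hk =>
    cg_of_cm hb₁M hk
  -- the conjugates of `b`
  have horth : ∀ x ∈ NY y, x ∉ CY y → mulF b (cg x b) = 0 := by
    intro x hx hxD
    by_cases hxb : cg x b = b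
    · exfalso
      obtain ⟨s, k, hs1, hs2⟩ := exists_elt hF.prime hxD (norm_pow hF.prime hord hcen hx)
      have hsM : x ^ s ∈ NY y := (NY y).pow_mem hx s
      have hsb : cg (x ^ s) b = b := by
        clear hs1 hs2 hsM
        induction s with
        | zero =>
          funext g
          unfold cg
          simp
        | succ s ih => rw [pow_succ, cg_mul, hxb, ih]
      have h1 := orbit_zero orb hF hkD hd
        (fun g => if g ∈ NY y then ev ρ (fun x : CY y => cg g a x) 0 0 else 0)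
        (fun g hg => if_neg hg)
        (fun g δ hδ => by
          have h2 : g * δ ∈ NY y ↔ g ∈ NY y := Subgroup.mul_mem_cancel_right _ (hDM hδ)
          change (if g * δ ∈ NY y then ev ρ (fun x : CY y => cg (g * δ) a x) 0 0 else 0) =
            if g ∈ NY y then ev ρ (fun x : CY y => cg g a x) 0 0 else 0
          rw [cg_mul, cg_of_cm haD hδ]
          by_cases hg : g ∈ NY y
          · rw [if_pos (h2.2 hg), if_pos hg]
          · rw [if_neg (fun h => hg (h2.1 h)), if_neg hg]) hs1 hs2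
        (fun g => by
          have h2 : x ^ s * g ∈ NY y ↔ g ∈ NY y := Subgroup.mul_mem_cancel_left _ hsM
          change (if x ^ s * g ∈ NY y then ev ρ (fun t : CY y => cg (x ^ s * g) a t) 0 0 else 0) =
            if g ∈ NY y then ev ρ (fun x : CY y => cg g a x) 0 0 else 0
          by_cases hg : g ∈ NY y
          · rw [if_pos (h2.2 hg), if_pos hg, cg_mul,
              ev_stab hb (hcga g hg) (fun t => (hkD _ hsM t).symm) hsb ρ hρ hρb]
          · rw [if_neg (fun h => hg (h2.1 h)), if_neg hg])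
      rw [finsum_eq_sum_of_fintype] at h1
      have h3 : ∑ g : G, d g * (if g ∈ NY y then ev ρ (fun x : CY y => cg g a x) 0 0 else 0) =
          (∑ g : G, d g • ev ρ (fun x : CY y => cg g a x)) 0 0 := by
        rw [Matrix.sum_apply]
        refine Finset.sum_congr rfl fun g _ => ?_
        by_cases hg : g ∈ NY y
        · rw [if_pos hg, Matrix.smul_apply, smul_eq_mul]
        · rw [if_neg hg, hd.supp g hg, zero_mul, zero_smul, Matrix.zero_apply]
      rw [h3, ← hsum, hρb₁, Matrix.one_apply_eq] at h1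
      exact one_ne_zero h1
    · exact H31.blc_orth hb (H31.blc_conj hb (fun t => (hkD x hx t).symm) (hb₁k x hx))
        (fun h => hxb h.symm)
  -- a conjugate of `a` which is not nilpotent
  obtain ⟨k, hk, hk0⟩ : ∃ k ∈ NY y, ev ρ (fun x : CY y => cg k a x) ≠ 0 := by
    by_contra hcon
    push Not at hcon
    rw [hρb₁, Finset.sum_eq_zero] at hsum
    · exact one_ne_zero hsum
    · intro k _
      by_cases hk : k ∈ NY y
      · rw [hcon k hk, smul_zero]
      · rw [hd.supp k hk, zero_smul]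
  obtain ⟨s, hs⟩ := hscal k hk
  have hs0 : s ≠ 0 := by
    rintro rfl
    apply hk0
    rw [hs, map_zero]
  have hcgs : SpF (CY y) (cg k a) := fun x hx => has _ fun h => hx ((hkD k hk x).1 h)
  have hz's : SpF (CY y) (cg k z₁) := fun x hx => hz₁s _ fun h => hx ((hkD k hk x).1 h)
  have hz'P : CmF (Subgroup.zpowers y) (cg k z₁) := by
    have h1 := H40.cmF_conj hz₁P k
    rw [hkP k hk] at h1
    exact h1
  have haT : cg k a = TrF w (cg k z₁) := by
    have h1 : cg k a = TrF (fun g => w (k⁻¹ * g * k)) (cg k z₁) := by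
      funext x
      exact (H40.TrG_conj k w z₁ x).symm
    have h2 := H40.w_conj hw (hkD k hk)
    rw [hkP k hk] at h2
    rw [h1, TrF_indep hPD h2 hw hz'P]
  obtain ⟨u, hu, hub⟩ := inv ℓ F hF (CY y) (fun x : CY y => b x) (fun x : CY y => cg k a x)
    hb.blk (fun x t => hcga k hk t t.2 x) (D1H51.not_nil hρ hs0 hs hρb)
  set U : G → F := ext0 (CY y) u with hU
  have hUD : CmF (CY y) U := fun m hm y => D1H51.ext0_inv hu hm y
  have hUs : SpF (CY y) U := fun y hy => H46.ext0_of_not_mem _ hy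
  have hprod : mulF (mulF b U) (cg k a) = b := by
    have h3 : mulF b (mulF (cg k a) U) = b := by
      have h4 := congrArg (ext0 (CY y)) hub
      rw [H46.ext0_mul, H46.ext0_mul, H46.ext0_restr hb.supp, H46.ext0_restr hcgs] at h4
      exact h4
    rw [mulF_assoc, cm_comm hUD hcgs]
    exact h3
  -- the elements
  have hshD : ∀ t ∈ Subgroup.zpowers y, CmF (CY y) (sh t (mulF b U)) := fun t ht =>
    sh_cm (hbD.mul hUD) fun c hc => hPcomm c hc t ht
  have hshb : ∀ t ∈ Subgroup.zpowers y, CmF (CY y) (sh t b) := fun t ht =>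
    sh_cm hbD fun c hc => hPcomm c hc t ht
  have hshs : ∀ t ∈ Subgroup.zpowers y, SpF (CY y) (sh t b) := fun t ht => sh_sp hb.supp (hPD ht)
  have hbsh : ∀ t ∈ Subgroup.zpowers y, mulF b (sh t b) = sh t b := by
    intro t ht
    rw [mulF_sh hbD (hPD ht), hbb]
  have hTv : ∀ t ∈ Subgroup.zpowers y,
      TrF w (mulF (sh t (mulF b U)) (cg k z₁)) = sh t b := by
    intro t ht
    rw [← mul_TrF hw (hshD t ht), ← haT, sh_mulF, hprod]
  have hvP : ∀ t ∈ Subgroup.zpowers y,
      CmF (Subgroup.zpowers y) (mulF (sh t (mulF b U)) (cg k z₁)) := fun t ht =>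
    ((hshD t ht).mono hPD).mul hz'P
  have hvs : ∀ t ∈ Subgroup.zpowers y,
      SpF (CY y) (mulF (sh t (mulF b U)) (cg k z₁)) := fun t ht =>
    (sh_sp (hb.supp.mul hUs) (hPD ht)).mul hz's
  have hbT : ∀ t ∈ Subgroup.zpowers y, mulF b (TrF d (sh t b)) = sh t b := by
    intro t ht
    rw [TrF_eq, mulF_sum']
    have h1 : ∀ g : G, mulF b (d g • cg g (sh t b)) = if g ∈ CY y then d g • sh t b else 0 := by
      intro g
      rw [mulF_smul]
      by_cases hg : g ∈ CY y
      · rw [if_pos hg, cg_of_cm (hshb t ht) hg, hbsh t ht]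
      · rw [if_neg hg]
        by_cases hgM : g ∈ NY y
        · have h2 : cg g (sh t b) = mulF (cg g b) (cg g (sh t b)) := by
            rw [← cg_mulF, hbsh t ht]
          rw [h2, ← mulF_assoc, horth g hgM hg, zero_mulF, smul_zero]
        · rw [hd.supp g hgM, zero_smul]
    rw [Finset.sum_congr rfl fun g _ => h1 g, ← Finset.sum_filter, ← Finset.sum_smul]
    have h2 := hd.sum 1 (NY y).one_mem
    have hfD := Fintype.ofFinite (CY y)
    rw [finsum_eq_sum_of_fintype] at h2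
    have h3 : ∑ g ∈ Finset.univ.filter (fun g : G => g ∈ CY y), d g = 1 := by
      rw [← h2]
      symm
      refine Finset.sum_bij (fun δ _ => (δ : G)) (fun δ _ => ?_) (fun δ _ δ' _ h => ?_)
        (fun g hg => ?_) (fun δ _ => ?_)
      · rw [Finset.mem_filter]
        exact ⟨Finset.mem_univ _, δ.2⟩
      · exact Subtype.ext h
      · rw [Finset.mem_filter] at hg
        exact ⟨⟨g, hg.2⟩, Finset.mem_univ _, rfl⟩
      · rw [one_mul]
    rw [h3, one_smul]
  -- the homomorphism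
  let χ : (G → F) →ₗ[F] (G → F) :=
    { toFun := fun f => mulF b (bY y f)
      map_add' := fun f g => by
        have h1 : bY y (f + g) = bY y f + bY y g := by
          funext x
          by_cases hx : x ∈ CY y
          · rw [bY_pos _ hx, Pi.add_apply, Pi.add_apply, bY_pos _ hx, bY_pos _ hx]
          · rw [bY_neg _ hx, Pi.add_apply, bY_neg _ hx, bY_neg _ hx, add_zero]
        rw [h1, mulF_add]
      map_smul' := fun α f => by
        have h1 : bY y (α • f) = α • bY y f := by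
          funext x
          by_cases hx : x ∈ CY y
          · rw [bY_pos _ hx, Pi.smul_apply, Pi.smul_apply, bY_pos _ hx]
          · rw [bY_neg _ hx, Pi.smul_apply, bY_neg _ hx, smul_zero]
        rw [h1, mulF_smul, RingHom.id_apply] }
  have hχ : ∀ f, χ f = mulF b (bY y f) := fun _ => rfl
  refine ⟨b, χ, ?_, ?_, ?_, ?_, ?_⟩
  · rw [hχ, hbb₁]
  · intro f g hf hg _ _
    rw [hχ, hχ, hχ, bY_mulF hF hPp (cmF_of_cl hf _) (cmF_of_cl hg _)]
    have hfs : SpF (CY y) (bY y f) := (bY_sp (N := ⊤) fun x hx =>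
      absurd (Subgroup.mem_top x) hx).mono inf_le_right
    calc mulF b (mulF (bY y f) (bY y g)) = mulF (mulF b b) (mulF (bY y f) (bY y g)) := by rw [hbb]
      _ = mulF (mulF b (mulF b (bY y f))) (bY y g) := by simp only [mulF_assoc]
      _ = mulF (mulF b (mulF (bY y f) b)) (bY y g) := by rw [cm_comm hbD hfs]
      _ = mulF (mulF b (bY y f)) (mulF b (bY y g)) := by simp only [mulF_assoc]
  · intro t ht
    have ht' : t ∈ CY y := Subgroup.center_le_centralizer _ ht
    have h1 : χ (sh t e) = sh t b := by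
      rw [hχ, bY_sh ht', mulF_sh hbD ht', hbb₁]
    exact h1
  · intro j
    have ht : y ^ j ∈ Subgroup.zpowers y := Subgroup.npow_mem_zpowers y j
    have hTcm : CmF ⊤ (TrF c (mulF (sh (y ^ j) (mulF b U)) (cg k z₁))) :=
      TrF_cm le_top hc (hvP _ ht)
    have hTcl : IsCl (TrF c (mulF (sh (y ^ j) (mulF b U)) (cg k z₁))) :=
      fun x g => hTcm g (Subgroup.mem_top g) x
    refine ⟨mulF e (TrF c (mulF (sh (y ^ j) (mulF b U)) (cg k z₁))), ?_, ?_, ?_⟩
    · have h1 := (cmF_of_cl he.1 ⊤).mul hTcm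
      exact fun x g => h1 g (Subgroup.mem_top g) x
    · rw [← mulF_assoc, he.2]
    · have h1 : χ (mulF e (TrF c (mulF (sh (y ^ j) (mulF b U)) (cg k z₁)))) = sh (y ^ j) b := by
        rw [hχ, bY_mulF hF hPp (cmF_of_cl he.1 _) (hTcm.mono le_top), hbrT _ (hvP _ ht),
          bY_of_sp (hvs _ ht), TrF_trans hPD hDM hc₁ hd hw (hvP _ ht), hTv _ ht, ← mulF_assoc,
          hbb₁, hbT _ ht]
      exact h1
  · obtain ⟨x, hx⟩ := coset_ne nls hF hPD (fun k hk p hp => by
      have h1 := hPcomm k hk p hp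
      rw [h1, mul_inv_cancel_right]
      exact hp) hPp ρ hρ hρb
    have hyq : y ^ (ℓ ^ (n + 1)) = 1 := by
      rw [← hord, pow_orderOf_eq_one]
    apply shift_indep hF.prime hF.char hyq (x₀ := x)
    intro h0
    apply hx
    rw [← h0]
    have hfP := Fintype.ofFinite (Subgroup.zpowers y)
    rw [finsum_eq_sum_of_fintype, ← hord, ← Fin.sum_univ_eq_sum_range
      (fun i => b ((y ^ i)⁻¹ * x))]
    symm
    refine Fintype.sum_equiv (finEquivZPowers (isOfFinOrder_of_finite y)) _ _ fun i => ?_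
    rw [finEquivZPowers_apply]
    have h1 := hbD ((y ^ (i : ℕ))) (hPD (Subgroup.npow_mem_zpowers y i)) ((y ^ (i : ℕ))⁻¹ * x)
    rw [mul_inv_cancel_left] at h1
    exact h1.symm

end Pool.Agent.PP.CD2.H75
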