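import Pool.Agent.Helper26_D2.Tr
import Pool.Agent.Helper26_D2.Brp
import Pool.Agent.Helper31_D2.Cl1
import Pool.Agent.Helper40_D2.CL2
import Pool.Agent.Helper6_D2.Loc

/-!
# Squad PP, part D2, module STB: the tools
-/

open scoped BigOperators

set_option linter.unusedSectionVars false

noncomputable section

namespace Pool.Agent.PP.CD2.H75

open Pool.Agent.PP Pool.Agent.Helper51_AWC Pool.Agent.Helper79_WRA Pool.Agent.PP.H20
  Pool.Agent.PP.CD2.H66 Pool.Agent.PP.CD2.H26

/-- the powers of a shift of order `q = ℓ ^ (n + 1)` are independent on `b` if the sum of the shifts of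
`b` is not zero -/
theorem shift_indep {F : Type} [Field F] {G : Type} [Group G] {ℓ n : ℕ} (hℓ : ℓ.Prime)
    (hc : CharP F ℓ) {y : G} (ho : y ^ (ℓ ^ (n + 1)) = 1) {b : G → F} {x₀ : G}
    (hb : ∑ i ∈ Finset.range (ℓ ^ (n + 1)), b ((y ^ i)⁻¹ * x₀) ≠ 0) :
    LinearIndependent F (fun m : Fin (ℓ ^ (n + 1)) => fun g => b ((y ^ (m : ℕ))⁻¹ * g)) := by
  classical
  have := Fact.mk hℓ
  set q := ℓ ^ (n + 1) with hq
  have hq0 : 0 < q := pow_pos hℓ.pos _
  let S : Module.End F (G → F) := LinearMap.funLeft F F (fun g : G => y⁻¹ * g)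
  have hS : ∀ (m : ℕ) (f : G → F), (S ^ m) f = fun g => f ((y ^ m)⁻¹ * g) := by
    intro m
    induction m with
    | zero =>
      intro f
      funext g
      rw [pow_zero, pow_zero, inv_one, one_mul]
      rfl
    | succ m ih =>
      intro f
      rw [pow_succ', Module.End.mul_apply, ih]
      funext g
      change f ((y ^ m)⁻¹ * (y⁻¹ * g)) = _
      rw [← mul_assoc, ← mul_inv_rev, ← pow_succ']
  have hX : ((Polynomial.X : Polynomial F) - Polynomial.C 1) ^ q = Polynomial.X ^ q - 1 := by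
    rw [hq, sub_pow_char_pow, Polynomial.C_1, one_pow]
  have hSq : Polynomial.aeval S (((Polynomial.X : Polynomial F) - Polynomial.C 1) ^ q) b = 0 := by
    rw [hX, map_sub, map_pow, Polynomial.aeval_X, map_one, LinearMap.sub_apply, hS, ho]
    funext g
    rw [inv_one]
    simp
  rw [Fintype.linearIndependent_iff]
  intro α hα
  set p : Polynomial F := ∑ m : Fin q, Polynomial.C (α m) * Polynomial.X ^ (m : ℕ) with hp
  have hpb : Polynomial.aeval S p b = 0 := by
    rw [hp, map_sum, LinearMap.sum_apply, ← hα]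
    refine Finset.sum_congr rfl fun m _ => ?_
    rw [map_mul, Polynomial.aeval_C, map_pow, Polynomial.aeval_X, Module.End.mul_apply, hS]
    rfl
  have hcoef : ∀ m : Fin q, p.coeff m = α m := by
    intro m
    rw [hp, Polynomial.finsetSum_coeff, Finset.sum_eq_single_of_mem m (Finset.mem_univ _)]
    · rw [Polynomial.coeff_C_mul_X_pow, if_pos rfl]
    · intro k _ hk
      rw [Polynomial.coeff_C_mul_X_pow, if_neg]
      intro h
      exact hk (Fin.ext h.symm)
  by_cases hp0 : p = 0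
  · intro m
    rw [← hcoef m, hp0, Polynomial.coeff_zero]
  exfalso
  have hdeg : p.natDegree < q := by
    rw [Polynomial.natDegree_lt_iff_degree_lt hp0, hp]
    refine lt_of_le_of_lt (Polynomial.degree_sum_le _ _) ?_
    rw [Finset.sup_lt_iff]
    · intro m _
      refine lt_of_le_of_lt (Polynomial.degree_C_mul_X_pow_le _ _) ?_
      exact_mod_cast m.2
    · exact WithBot.bot_lt_coe _
  set P : Polynomial F := ((Polynomial.X : Polynomial F) - Polynomial.C 1) ^ q with hP
  set g := EuclideanDomain.gcd p P with hg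
  have hgb : Polynomial.aeval S g b = 0 := by
    rw [hg, EuclideanDomain.gcd_eq_gcd_ab, map_add, mul_comm p, mul_comm P, map_mul, map_mul,
      LinearMap.add_apply, Module.End.mul_apply, Module.End.mul_apply, hpb, hSq, map_zero, map_zero,
      add_zero]
  obtain ⟨i, hi, has⟩ := (dvd_prime_pow (Polynomial.prime_X_sub_C (1 : F)) q).1
    (EuclideanDomain.gcd_dvd_right p P)
  have hip : i < q := by
    have h1 : (Polynomial.X - Polynomial.C (1 : F)) ^ i ∣ p :=
      has.dvd'.trans (EuclideanDomain.gcd_dvd_left p P)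
    have h2 := Polynomial.natDegree_le_of_dvd h1 hp0
    rw [Polynomial.natDegree_pow, Polynomial.natDegree_X_sub_C, mul_one] at h2
    omega
  have h3 : Polynomial.aeval S ((Polynomial.X - Polynomial.C (1 : F)) ^ (q - 1)) b = 0 := by
    obtain ⟨r, hr⟩ : g ∣ (Polynomial.X - Polynomial.C (1 : F)) ^ (q - 1) :=
      has.dvd.trans (pow_dvd_pow _ (by omega))
    rw [hr, mul_comm, map_mul, Module.End.mul_apply, hgb, map_zero]
  have h4 : (Polynomial.X - Polynomial.C (1 : F)) ^ (q - 1) =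
      ∑ j ∈ Finset.range q, Polynomial.X ^ j := by
    have h5 := geom_sum_mul (Polynomial.X : Polynomial F) q
    rw [← hX] at h5
    have h6 : (Polynomial.X - Polynomial.C (1 : F)) ≠ 0 := Polynomial.X_sub_C_ne_zero 1
    have h7 : ((Polynomial.X : Polynomial F) - Polynomial.C 1) ^ q =
        (Polynomial.X - Polynomial.C 1) ^ (q - 1) * (Polynomial.X - Polynomial.C 1) := by
      rw [← pow_succ]
      congr 1
      omega
    rw [hP, h7] at h5
    refine (mul_right_cancel₀ h6 ?_).symm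
    rw [← h5, Polynomial.C_1]
  rw [h4, map_sum, LinearMap.sum_apply] at h3
  have h8 := congrFun h3 x₀
  rw [Finset.sum_apply] at h8
  apply hb
  rw [← Pi.zero_apply (M := fun _ : G => F) x₀, ← h8]
  refine Finset.sum_congr rfl fun j _ => ?_
  rw [map_pow, Polynomial.aeval_X, hS]

variable {F : Type} [Field F] {G : Type} [Group G] [Finite G]

/-- transitivity of the relative trace -/
theorem TrF_trans {M D P : Subgroup G} (hPD : P ≤ D) (hDM : D ≤ M) {c₁ d w a : G → F}
    (hc : IsW M P c₁) (hd : IsW M D d) (hw : IsW D P w) (ha : CmF P a) :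
    TrF c₁ a = TrF d (TrF w a) := by
  classical
  have := Fintype.ofFinite G
  have := Fintype.ofFinite P
  have := Fintype.ofFinite D
  let c' : G → F := fun g => ∑ h : G, d h * w (h⁻¹ * g)
  have hc' : IsW M P c' := by
    constructor
    · intro g hg
      refine Finset.sum_eq_zero fun h _ => ?_
      by_cases hh : h ∈ M
      · rw [hw.supp, mul_zero]
        intro h1
        apply hg
        have h2 := M.mul_mem hh (hDM h1)
        rwa [mul_inv_cancel_left] at h2
      · rw [hd.supp h hh, zero_mul]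
    · intro g hg
      rw [finsum_eq_sum_of_fintype]
      change ∑ p : P, ∑ h : G, d h * w (h⁻¹ * (g * p)) = 1
      rw [Finset.sum_comm]
      have h1 : ∀ h : G, ∑ p : P, d h * w (h⁻¹ * (g * p)) = if g⁻¹ * h ∈ D then d h else 0 := by
        intro h
        rw [← Finset.mul_sum]
        by_cases hh : g⁻¹ * h ∈ D
        · have h2 : h⁻¹ * g ∈ D := by
            have h3 := D.inv_mem hh
            rwa [mul_inv_rev, inv_inv] at h3
          have h4 := hw.sum _ h2
          rw [finsum_eq_sum_of_fintype] at h4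
          rw [if_pos hh]
          simp only [mul_assoc] at h4
          rw [h4, mul_one]
        · rw [if_neg hh, Finset.sum_eq_zero, mul_zero]
          intro p _
          apply hw.supp
          intro h2
          apply hh
          have h3 := D.mul_mem h2 (D.inv_mem (hPD p.2))
          have h4 := D.inv_mem h3
          have e : (h⁻¹ * (g * (p : G)) * (p : G)⁻¹)⁻¹ = g⁻¹ * h := by group
          rwa [e] at h4
      rw [Finset.sum_congr rfl fun h _ => h1 h, ← Finset.sum_filter]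
      have h5 := hd.sum g hg
      rw [finsum_eq_sum_of_fintype] at h5
      rw [← h5]
      symm
      refine Finset.sum_bij (fun δ _ => g * (δ : G)) (fun δ _ => ?_) (fun δ _ δ' _ h => ?_)
        (fun h hh => ?_) (fun _ _ => rfl)
      · rw [Finset.mem_filter]
        refine ⟨Finset.mem_univ _, ?_⟩
        rw [inv_mul_cancel_left]
        exact δ.2
      · exact Subtype.ext (mul_left_cancel h)
      · rw [Finset.mem_filter] at hh
        exact ⟨⟨_, hh.2⟩, Finset.mem_univ _, by rw [mul_inv_cancel_left]⟩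
  rw [TrF_indep (hPD.trans hDM) hc hc' ha]
  funext x
  unfold TrF
  simp only [finsum_eq_sum_of_fintype]
  change ∑ g : G, (∑ h : G, d h * w (h⁻¹ * g)) * a (g⁻¹ * x * g) =
    ∑ h : G, d h * ∑ g : G, w g * a (g⁻¹ * (h⁻¹ * x * h) * g)
  have h1 : ∀ g : G, (∑ h : G, d h * w (h⁻¹ * g)) * a (g⁻¹ * x * g) =
      ∑ h : G, d h * w (h⁻¹ * g) * a (g⁻¹ * x * g) := fun g => Finset.sum_mul _ _ _
  rw [Finset.sum_congr rfl fun g _ => h1 g, Finset.sum_comm]
  refine Finset.sum_congr rfl fun h _ => ?_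
  rw [Finset.mul_sum]
  refine Fintype.sum_equiv (Equiv.mulLeft h⁻¹) _ _ fun g => ?_
  change d h * w (h⁻¹ * g) * a (g⁻¹ * x * g) =
    d h * (w (h⁻¹ * g) * a ((h⁻¹ * g)⁻¹ * (h⁻¹ * x * h) * (h⁻¹ * g)))
  rw [mul_assoc]
  congr 3
  group

/-- a sum over the cosets of `D` in `M` which is invariant under an `ℓ`-element outside `D` -/
theorem orbit_zero (orb : OrbStmt) {ℓ : ℕ} (hF : GoodF ℓ F) {M D : Subgroup G}
    (hn : ∀ k ∈ M, ∀ x, k⁻¹ * x * k ∈ D ↔ x ∈ D) {d : G → F} (hd : IsW M D d) (φ : G → F)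
    (h0 : ∀ g, g ∉ M → φ g = 0) (hD : ∀ g, ∀ δ ∈ D, φ (g * δ) = φ g) {x : G} (hxD : x ∉ D)
    {k : ℕ} (hk : orderOf x = ℓ ^ k) (hφ : ∀ g, φ (x * g) = φ g) :
    ∑ᶠ g : G, d g * φ g = 0 := by
  classical
  have := Fintype.ofFinite G
  rw [wsum hd φ h0 hD]
  have hP : IsPGroup ℓ (Subgroup.zpowers x) := by
    apply IsPGroup.of_card (n := k)
    rw [Nat.card_zpowers, hk]
  have hφ' : ∀ p ∈ Subgroup.zpowers x, ∀ g, φ (p * g) = φ g := by
    intro p hp
    have h1 : ∀ m : ℕ, ∀ g, φ (x ^ m * g) = φ g := by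
      intro m
      induction m with
      | zero => intro g; rw [pow_zero, one_mul]
      | succ m ih => intro g; rw [pow_succ', mul_assoc, hφ, ih]
    obtain ⟨m, rfl⟩ := (mem_powers_iff_mem_zpowers).2 hp
    exact h1 m
  have hout : ∀ g : G, φ (Quotient.out (QuotientGroup.mk g : G ⧸ D)) = φ g := by
    intro g
    obtain ⟨q, hq⟩ := QuotientGroup.mk_out_eq_mul D g
    rw [hq, hD g q q.2]
  rw [orb ℓ F F (Subgroup.zpowers x) (G ⧸ D) hF.prime hF.char hP (fun ξ => φ ξ.out)
    (fun p ξ => by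
      have h1 : p • ξ = (QuotientGroup.mk ((p : G) * ξ.out) : G ⧸ D) := by
        have h2 : ξ = QuotientGroup.mk ξ.out := (Quotient.out_eq _).symm
        conv_lhs => rw [h2]
        rfl
      change φ (Quotient.out (p • ξ)) = φ ξ.out
      rw [h1, hout, hφ' p p.2])]
  refine finsum_eq_zero_of_forall_eq_zero fun ξ => ?_
  rw [finsum_eq_if]
  by_cases hξ : ξ ∈ MulAction.fixedPoints (Subgroup.zpowers x) (G ⧸ D)
  · rw [if_pos hξ]
    apply h0
    intro hM
    have h1 := (fix_iff ξ).1 hξ (Subgroup.mem_zpowers x)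
    rw [mem_conjS] at h1
    exact hxD ((hn _ hM x).1 h1)
  · exact if_neg hξ

/-- the eigenvalue of a central element does not depend on the representation over the block -/
theorem ev_const [IsAlgClosed F] {H : Type} [Group H] [Finite H] {f z : H → F} (hf : IsBlk f)
    (hz : IsCl z) : ∃ c : F, ∀ (r : ℕ) (ρ : H →* Matrix (Fin r) (Fin r) F), IsIrr ρ →
    ev ρ f = 1 → ev ρ z = Matrix.scalar (Fin r) c := by
  obtain ⟨c, n, h⟩ := H6.dec hf hz
  refine ⟨c, fun r ρ hρ h1 => ?_⟩
  have hr : NeZero r := ⟨hρ.1.ne'⟩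
  obtain ⟨w, hw, -⟩ := H20.eig F H r ρ hρ z hz
  have h2 := D1H51.ev_iter ρ (z - c • f) f n
  rw [h, h1, mul_one] at h2
  have h3 : ev ρ (z - c • f) = Matrix.scalar (Fin r) (w - c) := by
    have h4 : z - c • f = ∑ i : Fin 2, (![1, -c] i) • (![z, f] i) := by
      rw [Fin.sum_univ_two]
      simp [sub_eq_add_neg]
    rw [h4, D1H51.ev_lin, Fin.sum_univ_two]
    simp only [Matrix.cons_val_zero, Matrix.cons_val_one]
    rw [hw, h1, one_smul, neg_smul, map_sub]
    rw [← sub_eq_add_neg]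
    congr 1
    ext i j
    simp [Matrix.scalar_apply, Matrix.one_apply, Matrix.diagonal_apply]
  rw [h3, ← map_pow] at h2
  have h5 : ev ρ (0 : H → F) = Matrix.scalar (Fin r) 0 := by
    have h6 := D1H51.ev_lin ρ (Finset.univ : Finset (Fin 0)) (fun _ => (0 : F)) (fun _ => (0 : H → F))
    rw [Finset.sum_of_isEmpty, Finset.sum_of_isEmpty] at h6
    rw [h6, map_zero]
  rw [h5] at h2
  have h7 := Matrix.scalar_inj.1 h2
  have hn : n ≠ 0 := by
    rintro rfl
    rw [pow_zero] at h7
    exact one_ne_zero h7.symm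
  have h8 : w - c = 0 := (pow_eq_zero_iff hn).1 h7.symm
  rw [hw, sub_eq_zero.1 h8]

/-- conjugation by an element which stabilises the block -/
theorem ev_stab [IsAlgClosed F] {D : Subgroup G} {b₁ b T : G → F} (hb : BlC D b₁ b)
    (hT : CmF D T) {k : G} (hk : ∀ x, x ∈ D ↔ k⁻¹ * x * k ∈ D) (hkb : cg k b = b) {r : ℕ}
    (ρ : D →* Matrix (Fin r) (Fin r) F) (hρ : IsIrr ρ) (h1 : ev ρ (fun x : D => b x) = 1) :
    ev ρ (fun x : D => cg k T x) = ev ρ (fun x : D => T x) := by
  have hcl : IsCl (fun x : D => T x) := fun x s => hT s s.2 x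
  obtain ⟨c, hc⟩ := ev_const hb.blk hcl
  rw [hc r ρ hρ h1]
  let α : D ≃* D := H31.cE k hk
  let ρ' : D →* Matrix (Fin r) (Fin r) F := ρ.comp α.symm.toMonoidHom
  have e1 : ρ'.comp α.toMonoidHom = ρ := by
    ext g : 1
    change ρ (α.symm (α g)) = ρ g
    rw [MulEquiv.symm_apply_apply]
  have h2 : ∀ a : G → F, ev ρ (fun x : D => cg k a x) = ev ρ' (fun x : D => a x) := by
    intro a
    have h3 := ev_equiv α ρ' (fun x : D => a x)
    rw [e1] at h3
    exact h3
  have h4 : ev ρ' (fun x : D => b x) = 1 := by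
    rw [← h2, hkb, h1]
  rw [h2, hc r ρ' (irr_equiv α.symm hρ) h4]

/-- the sums over the cosets of `P` of a block of `D` do not vanish -/
theorem coset_ne (nls : NlsStmt) {ℓ : ℕ} (hF : GoodF ℓ F) {D P : Subgroup G} (hPD : P ≤ D)
    (hn : ∀ k ∈ D, ∀ p ∈ P, k * p * k⁻¹ ∈ P) (hP : IsPGroup ℓ P) {b : G → F}
    {r : ℕ} (ρ : D →* Matrix (Fin r) (Fin r) F) (hρ : IsIrr ρ)
    (h1 : ev ρ (fun x : D => b x) = 1) : ∃ x : G, ∑ᶠ p : P, b (x * (p : G)⁻¹) ≠ 0 := by
  classical
  by_contra hcon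
  push Not at hcon
  have hfG := Fintype.ofFinite G
  have hfD := Fintype.ofFinite D
  have hfP := Fintype.ofFinite P
  have hr : NeZero r := ⟨hρ.1.ne'⟩
  obtain ⟨w, hw⟩ := D1H51.exists_w F hPD
  have hPn : (P.subgroupOf D).Normal := ⟨fun p hp k => hn k k.2 p hp⟩
  have hPp : IsPGroup ℓ (P.subgroupOf D) := hP.comap_subtype
  have htriv := (nls ℓ F hF D (P.subgroupOf D) hPn hPp r ρ hρ).1
  have h2 : ev ρ (fun x : D => b x) = 0 := by
    unfold ev
    rw [finsum_eq_sum_of_fintype]
    have h3 : ∀ x : D, b x • ρ x =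
        ∑ p : P, (w ((x : G) * p) * b x) • ρ (x * ⟨(p : G), hPD p.2⟩) := by
      intro x
      have h4 : ∀ p : P, ρ (x * ⟨(p : G), hPD p.2⟩) = ρ x := by
        intro p
        rw [map_mul, htriv ⟨(p : G), hPD p.2⟩ p.2, mul_one]
      rw [Finset.sum_congr rfl fun p _ => by rw [h4 p], ← Finset.sum_smul, ← Finset.sum_mul]
      have h5 := hw.sum x x.2
      rw [finsum_eq_sum_of_fintype] at h5
      rw [h5, one_mul]
    rw [Finset.sum_congr rfl fun x _ => h3 x, Finset.sum_comm]
    have h6 : ∀ p : P, ∑ x : D, (w ((x : G) * p) * b x) • ρ (x * ⟨(p : G), hPD p.2⟩) =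
        ∑ x : D, (w x * b ((x : G) * (p : G)⁻¹)) • ρ x := by
      intro p
      refine Fintype.sum_equiv (Equiv.mulRight (⟨(p : G), hPD p.2⟩ : D)) _ _ fun x => ?_
      change _ = (w ((x : G) * p) * b ((x : G) * p * (p : G)⁻¹)) • ρ (x * ⟨(p : G), hPD p.2⟩)
      rw [mul_inv_cancel_right]
    rw [Finset.sum_congr rfl fun p _ => h6 p, Finset.sum_comm]
    refine Finset.sum_eq_zero fun x _ => ?_
    rw [← Finset.sum_smul, ← Finset.mul_sum]
    have h7 := hcon x
    rw [finsum_eq_sum_of_fintype] at h7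
    rw [h7, mul_zero, zero_smul]
  rw [h1] at h2
  exact one_ne_zero h2

end Pool.Agent.PP.CD2.H75
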